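import Pool.Agent.K9h99.AC.Check
import Pool.Agent.K9h99.AC.Unit

/-!
# A unit-interval density with a small autoconvolution

An explicit step function with 65536 steps gives `c(∞) ≤ 0.751363 < 0.7516`.
-/

set_option autoImplicit false

open MeasureTheory Set
open scoped ENNReal

namespace Pool.Agent.Results.MP_aa868c_an.UpperBound

/-- A unit-interval density: `f : ℝ → ℝ` integrable, nonnegative, zero outside `[0, 1]`, with
integral `1`. -/
def IsDensity (f : ℝ → ℝ) : Prop :=
  Integrable f ∧ (∀ x, 0 ≤ f x) ∧ (∀ x, x ∉ Icc (0 : ℝ) 1 → f x = 0) ∧ ∫ x, f x = 1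

/-- The autoconvolution `(f * f)(x) = ∫ f(t) f(x - t) dt`. -/
noncomputable def autoconv (f : ℝ → ℝ) (x : ℝ) : ℝ := ∫ t, f t * f (x - t)

/-- `c(p)`: the infimum, over the unit-interval densities `f`, of the `L^p(ℝ)` norm of `f * f`. -/
noncomputable def c (p : ℝ≥0∞) : ℝ≥0∞ :=
  ⨅ (f : ℝ → ℝ) (_ : IsDensity f), eLpNorm (autoconv f) p volume

/-- **Main theorem.** There is a unit-interval density `f`, square-integrable, whose
autoconvolution is everywhere the integral of an integrable function and is everywhere at most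
`0.751363`; hence `c(∞) ≤ 0.751363 < 0.7516`. -/
theorem result :
    (∃ f : ℝ → ℝ, IsDensity f ∧ MemLp f 2 volume ∧
      (∀ x, Integrable (fun t => f t * f (x - t))) ∧ ∀ x, autoconv f x ≤ 0.751363) ∧
    c ⊤ ≤ ENNReal.ofReal 0.751363 ∧ c ⊤ < ENNReal.ofReal 0.7516 := by
  obtain ⟨g, h0, hg, hm, hconv⟩ := Pool.Agent.K9h99.AC.exists_fun
  set M : ℝ := ((68375879256 : ℕ) : ℝ) / (2 * ((65536 : ℕ) : ℝ)) with hM
  have hMpos : 0 < M := by rw [hM]; norm_num
  set f := Pool.Agent.K9h99.AC.unitF g M with hf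
  have hd : IsDensity f := ⟨Pool.Agent.K9h99.AC.unitF_integrable hg M,
    Pool.Agent.K9h99.AC.unitF_nonneg h0 hMpos, fun x hx => Pool.Agent.K9h99.AC.unitF_zero hx,
    Pool.Agent.K9h99.AC.unitF_integral hMpos hm⟩
  have hL2 : MemLp f 2 volume := Pool.Agent.K9h99.AC.unitF_memLp hg M
  have hb : ∀ x, autoconv f x ≤ 0.751363 := by
    intro x
    refine (Pool.Agent.K9h99.AC.unitF_conv h0 hg hMpos hconv x).trans ?_
    rw [hM]
    norm_num
  have hc : c ⊤ ≤ ENNReal.ofReal 0.751363 := by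
    refine (iInf₂_le f hd).trans ?_
    rw [eLpNorm_exponent_top]
    refine eLpNormEssSup_le_of_ae_bound (Filter.Eventually.of_forall fun x => ?_)
    rw [Real.norm_of_nonneg (show 0 ≤ autoconv f x from
      integral_nonneg fun t => mul_nonneg (hd.2.1 _) (hd.2.1 _))]
    exact hb x
  exact ⟨⟨f, hd, hL2, fun x => Pool.Agent.K9h99.AC.conv_int hL2 x, hb⟩, hc,
    hc.trans_lt (by
      rw [ENNReal.ofReal_lt_ofReal_iff (by norm_num)]
      norm_num)⟩

end Pool.Agent.Results.MP_aa868c_an.UpperBound
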